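import Pool.Agent.Helper71.P4.St

/-!
# MP_3dd6d4_an, project P4, module GEN: generating form of the arcsine majorisation
-/

set_option autoImplicit false

open MeasureTheory Set Filter Topology
open scoped ENNReal

noncomputable section

namespace Helper71.P4

open Helper69.CR

private lemma pp_cont_GEN (n : ℕ) : Continuous (pp n) := by
  unfold pp
  fun_prop

/-- Wallis on `[0, π/2]`. -/
private lemma wallis_GEN (m : ℕ) :
    ∫ x in (0 : ℝ)..(Real.pi / 2), Real.sin x ^ (2 * m) =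
      Real.pi / 2 * (Nat.centralBinom m / 4 ^ m) := by
  induction m with
  | zero => simp
  | succ m ih =>
    rw [show 2 * (m + 1) = 2 * m + 2 by ring, integral_sin_pow, ih]
    simp only [Real.sin_zero, Real.cos_pi_div_two, mul_zero, sub_zero]
    rw [zero_pow (by omega), zero_mul, zero_div, zero_add]
    have h := Nat.succ_mul_centralBinom_succ m
    have h' : ((m : ℝ) + 1) * (Nat.centralBinom (m + 1) : ℝ) =
        2 * (2 * m + 1) * (Nat.centralBinom m : ℝ) := by exact_mod_cast h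
    have hm : ((m : ℝ) + 1) ≠ 0 := by positivity
    have e : (Nat.centralBinom (m + 1) : ℝ) = 2 * (2 * m + 1) * (Nat.centralBinom m : ℝ) / (m + 1) := by
      field_simp
      linarith
    rw [e]
    push_cast
    field_simp
    ring

/-- the arcsine moments -/
private lemma arcsin_GEN (m : ℕ) :
    ∫⁻ t in Ioo (0 : ℝ) 1, ENNReal.ofReal ((t * (1 - t)) ^ (-(1 / 2) : ℝ)) *
      ENNReal.ofReal (t ^ m) = ENNReal.ofReal (Real.pi * (Nat.centralBinom m / 4 ^ m)) := by
  have hpi := Real.pi_pos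
  have himg : (fun x : ℝ => Real.sin x ^ 2) '' (Ioo 0 (Real.pi / 2)) = Ioo (0 : ℝ) 1 := by
    ext t
    constructor
    · rintro ⟨x, ⟨hx0, hx1⟩, rfl⟩
      have h1 : 0 < Real.sin x := Real.sin_pos_of_pos_of_lt_pi hx0 (by linarith)
      have h2 : 0 < Real.cos x := Real.cos_pos_of_mem_Ioo ⟨by linarith, hx1⟩
      have h3 := Real.sin_sq_add_cos_sq x
      exact ⟨by positivity, by show Real.sin x ^ 2 < 1; nlinarith [sq_pos_of_pos h2]⟩
    · rintro ⟨ht0, ht1⟩
      have hs0 : 0 < Real.sqrt t := Real.sqrt_pos.2 ht0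
      have hs1 : Real.sqrt t < 1 := by
        rw [Real.sqrt_lt' one_pos]; simpa using ht1
      refine ⟨Real.arcsin (Real.sqrt t), ⟨Real.arcsin_pos.2 hs0, Real.arcsin_lt_pi_div_two.2 hs1⟩, ?_⟩
      show Real.sin (Real.arcsin (Real.sqrt t)) ^ 2 = t
      rw [Real.sin_arcsin (by linarith) hs1.le, Real.sq_sqrt ht0.le]
  have hinj : InjOn (fun x : ℝ => Real.sin x ^ 2) (Ioo 0 (Real.pi / 2)) := by
    intro x hx y hy hxy
    have h1 : 0 < Real.sin x := Real.sin_pos_of_pos_of_lt_pi hx.1 (by linarith [hx.2])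
    have h2 : 0 < Real.sin y := Real.sin_pos_of_pos_of_lt_pi hy.1 (by linarith [hy.2])
    have h3 : Real.sin x = Real.sin y := by
      have : Real.sin x ^ 2 = Real.sin y ^ 2 := hxy
      exact (pow_left_inj₀ h1.le h2.le two_ne_zero).1 this
    exact Real.injOn_sin ⟨by linarith [hx.1], hx.2.le⟩ ⟨by linarith [hy.1], hy.2.le⟩ h3
  have hder : ∀ x ∈ Ioo (0 : ℝ) (Real.pi / 2),
      HasDerivWithinAt (fun x : ℝ => Real.sin x ^ 2) (2 * Real.sin x * Real.cos x)
        (Ioo 0 (Real.pi / 2)) x := by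
    intro x _
    have h := (Real.hasDerivAt_sin x).pow 2
    have h' : HasDerivAt (fun x : ℝ => Real.sin x ^ 2) (2 * Real.sin x * Real.cos x) x := by
      have e : (2 * Real.sin x * Real.cos x) = ((2 : ℕ) : ℝ) * Real.sin x ^ (2 - 1) * Real.cos x := by
        norm_num
      rw [e]
      exact h
    exact h'.hasDerivWithinAt
  rw [← himg, lintegral_image_eq_lintegral_abs_deriv_mul measurableSet_Ioo hder hinj]
  have hint : ∀ x ∈ Ioo (0 : ℝ) (Real.pi / 2),
      ENNReal.ofReal |2 * Real.sin x * Real.cos x| *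
        (ENNReal.ofReal ((Real.sin x ^ 2 * (1 - Real.sin x ^ 2)) ^ (-(1 / 2) : ℝ)) *
          ENNReal.ofReal ((Real.sin x ^ 2) ^ m)) = ENNReal.ofReal (2 * Real.sin x ^ (2 * m)) := by
    intro x hx
    have h1 : 0 < Real.sin x := Real.sin_pos_of_pos_of_lt_pi hx.1 (by linarith [hx.2])
    have h2 : 0 < Real.cos x := Real.cos_pos_of_mem_Ioo ⟨by linarith [hx.1], hx.2⟩
    have h3 : Real.sin x ^ 2 * (1 - Real.sin x ^ 2) = (Real.sin x * Real.cos x) ^ 2 := by
      rw [mul_pow, ← Real.cos_sq']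
    have h4 : 0 < Real.sin x * Real.cos x := mul_pos h1 h2
    have h5 : ((Real.sin x * Real.cos x) ^ 2) ^ (-(1 / 2) : ℝ) = (Real.sin x * Real.cos x)⁻¹ := by
      rw [Real.rpow_neg (by positivity), ← Real.sqrt_eq_rpow, Real.sqrt_sq h4.le]
    rw [h3, h5, ← ENNReal.ofReal_mul (by positivity), ← ENNReal.ofReal_mul (by positivity),
      abs_of_pos (by positivity), ← pow_mul]
    congr 1
    field_simp
  rw [setLIntegral_congr_fun measurableSet_Ioo hint]
  have hc : Continuous fun x : ℝ => 2 * Real.sin x ^ (2 * m) := by fun_prop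
  have hII : IntegrableOn (fun x : ℝ => 2 * Real.sin x ^ (2 * m)) (Ioo 0 (Real.pi / 2)) :=
    (hc.integrableOn_Icc (a := 0) (b := Real.pi / 2)).mono_set Ioo_subset_Icc_self
  rw [← ofReal_integral_eq_lintegral_ofReal hII (Filter.Eventually.of_forall fun x => by
    have : 0 ≤ Real.sin x ^ (2 * m) := by rw [pow_mul]; positivity
    positivity)]
  congr 1
  rw [← integral_Ioc_eq_integral_Ioo, ← intervalIntegral.integral_of_le (by positivity),
    intervalIntegral.integral_const_mul, wallis_GEN]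
  ring

theorem hGEN (hAM : StAM) : StGEN := by
  intro n hn F hF
  obtain ⟨a, ha⟩ := hF
  have hpc := pp_cont_GEN n
  -- moments of `(1-t) p_n²`
  have hX : ∀ m : ℕ, ∫⁻ t in Ioo (0 : ℝ) 1, ENNReal.ofReal ((1 - t) * pp n t ^ 2) *
      ENNReal.ofReal (t ^ m) = ENNReal.ofReal (Xm n m) := by
    intro m
    have h1 : ∀ t ∈ Ioo (0 : ℝ) 1, ENNReal.ofReal ((1 - t) * pp n t ^ 2) *
        ENNReal.ofReal (t ^ m) = ENNReal.ofReal (t ^ m * ((1 - t) * pp n t ^ 2)) := by
      intro t ht
      have : 0 ≤ (1 - t) * pp n t ^ 2 := mul_nonneg (by linarith [ht.2]) (sq_nonneg _)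
      rw [← ENNReal.ofReal_mul this, mul_comm]
    rw [setLIntegral_congr_fun measurableSet_Ioo h1]
    have hc : Continuous fun t : ℝ => t ^ m * ((1 - t) * pp n t ^ 2) := by fun_prop
    have hII : IntegrableOn (fun t : ℝ => t ^ m * ((1 - t) * pp n t ^ 2)) (Ioo 0 1) :=
      (hc.integrableOn_Icc (a := 0) (b := 1)).mono_set Ioo_subset_Icc_self
    rw [← ofReal_integral_eq_lintegral_ofReal hII]
    · congr 1
      rw [← integral_Ioc_eq_integral_Ioo, ← intervalIntegral.integral_of_le zero_le_one]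
      rfl
    · rw [Filter.EventuallyLE, ae_restrict_iff' measurableSet_Ioo]
      refine Filter.Eventually.of_forall fun t ht => ?_
      have h1 : 0 ≤ 1 - t := by linarith [ht.2]
      have h2 : 0 ≤ t := ht.1.le
      show (0 : ℝ) ≤ t ^ m * ((1 - t) * pp n t ^ 2)
      positivity
  -- sum over `m`
  have hsum : ∀ g : ℝ → ℝ≥0∞, Measurable g →
      ∫⁻ t in Ioo (0 : ℝ) 1, g t * F t =
        ∑' m, a m * ∫⁻ t in Ioo (0 : ℝ) 1, g t * ENNReal.ofReal (t ^ m) := by
    intro g hg
    have h1 : ∀ t ∈ Ioo (0 : ℝ) 1, g t * F t = ∑' m, a m * (g t * ENNReal.ofReal (t ^ m)) := by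
      intro t ht
      rw [ha t ht.1.le ht.2, ← ENNReal.tsum_mul_left]
      refine tsum_congr fun m => ?_
      ring
    rw [setLIntegral_congr_fun measurableSet_Ioo h1, lintegral_tsum]
    · refine tsum_congr fun m => ?_
      rw [lintegral_const_mul]
      fun_prop
    · intro m
      fun_prop
  rw [hsum _ (by fun_prop), hsum _ (by fun_prop), ← ENNReal.tsum_mul_left]
  refine ENNReal.tsum_le_tsum fun m => ?_
  rw [hX, arcsin_GEN, mul_left_comm, ← ENNReal.ofReal_mul (by positivity)]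
  refine mul_le_mul_right ?_ _
  refine ENNReal.ofReal_le_ofReal ((hAM n hn m).trans_eq ?_)
  have hpi := Real.pi_pos.ne'
  field_simp

end Helper71.P4
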